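import Pool.Agent.MP_f6b137_pr.H74.Base

/-! The variance limit and the central limit theorem in the angular variable. -/

namespace Pool.Agent.MP_f6b137_pr.H16

open MeasureTheory ProbabilityTheory Filter Topology Polynomial Pool.Agent.MP_f6b137_pr.H74
open scoped Real RealInnerProductSpace

noncomputable section

section gen

variable {Ω Ω' : Type*} [MeasurableSpace Ω] [MeasurableSpace Ω']

/-- the standardised variable -/
def sdz (P : Measure Ω) (X : Ω → ℝ) (ω : Ω) : ℝ := (X ω - ∫ y, X y ∂P) / √(Var[X; P])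

/-- its characteristic function -/
def cf (P : Measure Ω) (X : Ω → ℝ) (t : ℝ) : ℂ := charFun (P.map (sdz P X)) t

lemma measurable_sdz (P : Measure Ω) {X : Ω → ℝ} (h : Measurable X) : Measurable (sdz P X) :=
  (h.sub_const _).div_const _

variable {P : Measure Ω} [IsProbabilityMeasure P]

lemma abs_dev {X : Ω → ℝ} (h : MemLp X 2 P) :
    ∫ ω, |X ω - ∫ y, X y ∂P| ∂P ≤ √(Var[X; P]) := by
  have h1 : MemLp (fun ω => |X ω - ∫ y, X y ∂P|) 2 P := (h.sub (memLp_const _)).abs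
  have h2 := variance_nonneg (fun ω => |X ω - ∫ y, X y ∂P|) P
  rw [variance_eq_sub h1] at h2
  refine Real.le_sqrt_of_sq_le ?_
  rw [variance_eq_integral h.aestronglyMeasurable.aemeasurable]
  simp only [Pi.pow_apply, sq_abs] at h2
  linarith

lemma cf_sub {A T : Ω → ℝ} (hA : Measurable A) (hT : Measurable T)
    (h : Integrable (fun ω => A ω - T ω) P) (t : ℝ) :
    ‖charFun (P.map A) t - charFun (P.map T) t‖ ≤ |t| * ∫ ω, |A ω - T ω| ∂P := by
  have i1 : ∀ X : Ω → ℝ, Measurable X →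
      Integrable (fun ω => Complex.exp (t * X ω * Complex.I)) P := fun X hX =>
    Integrable.of_bound (by fun_prop) 1 (Eventually.of_forall fun ω => by
      rw [← Complex.ofReal_mul, Complex.norm_exp_ofReal_mul_I])
  rw [charFun_apply_real, charFun_apply_real, integral_map hA.aemeasurable (by fun_prop),
    integral_map hT.aemeasurable (by fun_prop), ← integral_sub (i1 A hA) (i1 T hT),
    ← integral_const_mul]
  refine norm_integral_le_of_norm_le (h.abs.const_mul _) (Eventually.of_forall fun ω => ?_)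
  have e : Complex.exp (t * A ω * Complex.I) - Complex.exp (t * T ω * Complex.I) =
      Complex.exp ((t * T ω : ℝ) * Complex.I) *
        (Complex.exp (Complex.I * (t * (A ω - T ω) : ℝ)) - 1) := by
    rw [mul_sub, ← Complex.exp_add, mul_one]
    push_cast
    congr 2
    ring
  rw [e, norm_mul, Complex.norm_exp_ofReal_mul_I, one_mul, ← abs_mul]
  exact Real.norm_exp_I_mul_ofReal_sub_one_le

lemma sd_close {Z S : Ω → ℝ} (hZ : MemLp Z 2 P) (hS : MemLp S 2 P) :
    |√(Var[Z; P]) - √(Var[S; P])| ≤ √(Var[fun ω => Z ω - S ω; P]) := by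
  have h1 := sd_add_le (f := fun ω => Z ω - S ω) (hZ.sub hS) hS
  have h2 := sd_sub_le (g := fun ω => Z ω - S ω) hZ (hZ.sub hS)
  simp only [sub_add_cancel] at h1
  simp only [sub_sub_cancel] at h2
  rw [abs_le]
  constructor <;> linarith

lemma cf_close {Z S : Ω → ℝ} (mZ : Measurable Z) (mS : Measurable S) (hZ : MemLp Z 2 P)
    (hS : MemLp S 2 P) (ha : 0 < Var[Z; P]) (hb : 0 < Var[S; P]) (t : ℝ) :
    ‖cf P Z t - cf P S t‖ ≤ |t| * (2 * √(Var[fun ω => Z ω - S ω; P]) / √(Var[Z; P])) := by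
  have iZ := hZ.integrable one_le_two
  have iS := hS.integrable one_le_two
  have h1 := abs_dev (X := fun ω => Z ω - S ω) (hZ.sub hS)
  have h2 := abs_dev hS
  have h3 := sd_close hZ hS
  have a0 := Real.sqrt_pos.2 ha
  have b0 := Real.sqrt_pos.2 hb
  rw [integral_sub iZ iS] at h1
  refine (cf_sub (measurable_sdz P mZ) (measurable_sdz P mS)
    (((iZ.sub (integrable_const _)).div_const _).sub
      ((iS.sub (integrable_const _)).div_const _)) t).trans
    (mul_le_mul_of_nonneg_left ?_ (abs_nonneg t))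
  unfold sdz
  generalize √(Var[Z; P]) = a at *
  generalize √(Var[S; P]) = b at *
  generalize √(Var[fun ω => Z ω - S ω; P]) = δ at *
  have j1 : Integrable (fun ω => |Z ω - S ω - (∫ y, Z y ∂P - ∫ y, S y ∂P)|) P :=
    ((iZ.sub iS).sub (integrable_const _)).abs
  have j2 : Integrable (fun ω => |S ω - ∫ y, S y ∂P|) P := (iS.sub (integrable_const _)).abs
  have h4 : ∫ ω, |(Z ω - ∫ y, Z y ∂P) / a - (S ω - ∫ y, S y ∂P) / b| ∂P ≤
      ∫ ω, (a⁻¹ * |Z ω - S ω - (∫ y, Z y ∂P - ∫ y, S y ∂P)| +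
        |a - b| / (a * b) * |S ω - ∫ y, S y ∂P|) ∂P := by
    refine integral_mono_of_nonneg (Eventually.of_forall fun ω => abs_nonneg _)
      ((j1.const_mul _).add (j2.const_mul _)) (Eventually.of_forall fun ω => ?_)
    have e : (Z ω - ∫ y, Z y ∂P) / a - (S ω - ∫ y, S y ∂P) / b =
        a⁻¹ * (Z ω - S ω - (∫ y, Z y ∂P - ∫ y, S y ∂P)) -
          (a - b) / (a * b) * (S ω - ∫ y, S y ∂P) := by
      field_simp
      ring
    beta_reduce
    rw [e]
    refine (abs_sub _ _).trans (le_of_eq ?_)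
    rw [abs_mul, abs_mul, abs_div, abs_of_pos (inv_pos.2 a0), abs_of_pos (mul_pos a0 b0)]
  rw [integral_add (j1.const_mul _) (j2.const_mul _), integral_const_mul, integral_const_mul] at h4
  have h5 := mul_le_mul_of_nonneg_left h1 (inv_pos.2 a0).le
  have h6 : |a - b| / (a * b) * ∫ ω, |S ω - ∫ y, S y ∂P| ∂P ≤ δ / (a * b) * b :=
    mul_le_mul (div_le_div_of_nonneg_right h3 (mul_pos a0 b0).le) h2
      (integral_nonneg fun ω => abs_nonneg _)
      (div_nonneg ((abs_nonneg _).trans h3) (mul_pos a0 b0).le)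
  refine (h4.trans (add_le_add h5 h6)).trans (le_of_eq ?_)
  field_simp
  ring

omit [IsProbabilityMeasure P] in
lemma transport {Q : Measure Ω'} {f : Ω → Ω'} (hf : Measurable f) (h : P.map f = Q) {X : Ω' → ℝ}
    (hX : Measurable X) : ∫ ω, X (f ω) ∂P = ∫ y, X y ∂Q ∧ Var[fun ω => X (f ω); P] = Var[X; Q] ∧
      ∀ t, cf P (fun ω => X (f ω)) t = cf Q X t := by
  have h1 : ∫ ω, X (f ω) ∂P = ∫ y, X y ∂Q := by
    rw [← h, integral_map hf.aemeasurable hX.aestronglyMeasurable]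
  have h2 : Var[fun ω => X (f ω); P] = Var[X; Q] := by
    rw [← h, variance_map hX.aemeasurable hf.aemeasurable]
    rfl
  refine ⟨h1, h2, fun t => ?_⟩
  have e : sdz P (fun ω => X (f ω)) = sdz Q X ∘ f := by
    funext ω
    simp only [sdz, h1, h2, Function.comp]
  rw [cf, cf, e, ← Measure.map_map (measurable_sdz Q hX) hf, h]

lemma iid {Q : Measure Ω'} {m : ℕ} {Y : Fin m → Ω → Ω'} (mY : ∀ b, Measurable (Y b))
    (hi : iIndepFun Y P) (h : ∀ b, P.map (Y b) = Q) {G : Ω' → ℝ} (mG : Measurable G) (M : ℝ)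
    (bG : ∀ y, |G y| ≤ M) : Var[fun ω => ∑ b, G (Y b ω); P] = m * Var[G; Q] ∧
      ∀ t, cf P (fun ω => ∑ b, G (Y b ω)) t = cf Q G ((√m)⁻¹ * t) ^ m := by
  have l2 : ∀ b, MemLp (fun ω => G (Y b ω)) 2 P := fun b =>
    memLp_bdd (mG.comp (mY b)) M fun ω => bG _
  have tr := fun b => transport (mY b) (h b) mG
  have h1 : Var[fun ω => ∑ b, G (Y b ω); P] = m * Var[G; Q] := by
    have := IndepFun.variance_sum (μ := P) (X := fun b ω => G (Y b ω)) (s := Finset.univ)
      (fun b _ => l2 b) fun i _ j _ hij => (hi.comp (fun _ => G) fun _ => mG).indepFun hij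
    rw [show (∑ i, fun ω => G (Y i ω)) = fun ω => ∑ b, G (Y b ω) from
      funext fun ω => Finset.sum_apply _ _ _] at this
    rw [this]
    simp [fun b => (tr b).2.1]
  refine ⟨h1, fun t => ?_⟩
  have h2 : ∫ ω, ∑ b, G (Y b ω) ∂P = m * ∫ y, G y ∂Q := by
    rw [integral_finsetSum _ fun b _ => (l2 b).integrable one_le_two]
    simp [fun b => (tr b).1]
  have e : sdz P (fun ω => ∑ b, G (Y b ω)) = fun ω => (√m)⁻¹ * ∑ b, sdz Q G (Y b ω) := by
    funext ω
    simp only [sdz, h1, h2]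
    rw [← Finset.sum_div, Finset.sum_sub_distrib, Real.sqrt_mul (Nat.cast_nonneg m)]
    simp only [Finset.sum_const, Finset.card_univ, Fintype.card_fin, nsmul_eq_mul]
    rw [div_mul_eq_div_div_swap, div_eq_inv_mul _ √m]
  have ms := measurable_sdz Q mG
  have mm : Measurable fun ω => ∑ b, sdz Q G (Y b ω) :=
    Finset.measurable_sum _ fun b _ => ms.comp (mY b)
  rw [cf, e, charFun_map_mul_comp mm.aemeasurable,
    iIndepFun.charFun_map_fun_sum_eq_prod (X := fun b ω => sdz Q G (Y b ω))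
      (fun b => (ms.comp (mY b)).aemeasurable) (hi.comp (fun _ => sdz Q G) fun _ => ms)]
  have e2 : ∀ b, P.map (fun ω => sdz Q G (Y b ω)) = Q.map (sdz Q G) := fun b => by
    rw [← h b, Measure.map_map (by rw [h b]; exact ms) (mY b), h b]
    rfl
  simp [e2, cf]

lemma clt {G : Ω → ℝ} (mG : Measurable G) (hG : MemLp G 2 P) (h : 0 < Var[G; P]) (t : ℝ) :
    Tendsto (fun m : ℕ => cf P G ((√m)⁻¹ * t) ^ m) atTop (𝓝 (Complex.exp (-(t : ℂ) ^ 2 / 2))) := by
  refine tendsto_charFun_inv_sqrt_mul_pow (measurable_sdz P mG).aemeasurable ?_ ?_ t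
  · unfold sdz
    rw [integral_div, integral_sub (hG.integrable one_le_two) (integrable_const _)]
    simp
  · simp only [Pi.pow_apply, sdz, div_pow]
    rw [integral_div, ← variance_eq_integral mG.aemeasurable, Real.sq_sqrt h.le, div_self h.ne']

end gen

lemma blocks_top (d B : ℕ) (hB : 0 < B) : Tendsto (fun n : ℕ => (n + 1 - d) / B) atTop atTop :=
  (Nat.tendsto_div_const_atTop hB.ne').comp
    ((tendsto_sub_atTop_nat d).comp (tendsto_add_atTop_nat 1))

lemma blocks_ratio (d B : ℕ) (hB : 0 < B) :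
    Tendsto (fun n : ℕ => (((n + 1 - d) / B : ℕ) : ℝ) / n) atTop (𝓝 (1 / B)) := by
  rw [tendsto_iff_norm_sub_tendsto_zero]
  refine squeeze_zero' (Eventually.of_forall fun _ => norm_nonneg _) ?_
    (tendsto_const_div_atTop_nhds_zero_nat ((d : ℝ) + B + 1))
  filter_upwards [eventually_ge_atTop (d + 1)] with n hn
  have b1 : (1 : ℝ) ≤ B := by exact_mod_cast hB
  have n0 : (0 : ℝ) < n := by exact_mod_cast (show 0 < n by omega)
  have h1 := Nat.div_add_mod (n + 1 - d) B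
  have h2 := Nat.mod_lt (n + 1 - d) hB
  generalize (n + 1 - d) / B = m at *
  have h3 : (B : ℝ) * m ≤ n + 1 := by exact_mod_cast (show B * m ≤ n + 1 by omega)
  have h4 : (n : ℝ) ≤ B * m + B + d := by exact_mod_cast (show n ≤ B * m + B + d by omega)
  have d0 : (0 : ℝ) ≤ d := Nat.cast_nonneg d
  rw [show (m : ℝ) / n - 1 / B = (B * m - n) / B / n by field_simp, Real.norm_eq_abs, abs_div,
    abs_of_pos n0, abs_div, abs_of_pos (by linarith : (0 : ℝ) < B)]
  refine div_le_div_of_nonneg_right ((div_le_self (abs_nonneg _) b1).trans ?_) n0.le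
  rw [abs_le]
  constructor <;> linarith

/-- for large parameters, chosen in order -/
def Ev (Q : ℕ → ℕ → ℕ → Prop) : Prop :=
  ∀ᶠ l in atTop, ∀ᶠ R in atTop, ∀ᶠ B in atTop, Q l R B

lemma Ev.and {Q Q' : ℕ → ℕ → ℕ → Prop} (h : Ev Q) (h' : Ev Q') :
    Ev fun l R B => Q l R B ∧ Q' l R B :=
  (Eventually.and h h').mono fun _ a => (a.1.and a.2).mono fun _ b => b.1.and b.2

lemma Ev.ex {Q : ℕ → ℕ → ℕ → Prop} (h : Ev Q) : ∃ l R B, Q l R B := by
  obtain ⟨l, h⟩ := Eventually.exists h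
  obtain ⟨R, h⟩ := h.exists
  obtain ⟨B, h⟩ := h.exists
  exact ⟨l, R, B, h⟩

/-- the normalised standard deviation -/
def xs (p : ℕ → ℝ[X]) (n : ℕ) : ℝ := √(Var[cnt p n; piG (n + 1)] / n)

/-- the same for the model -/
def ys (l R B : ℕ) : ℝ := √(Var[Gm l R B; piG B] / B)

/-- the approximation property -/
def Ap (p : ℕ → ℝ[X]) : Prop :=
  ∀ η : ℝ, 0 < η → Ev fun l R B => (∀ᶠ n in atTop, |xs p n - ys l R B| ≤ 2 * η) ∧
    (0 < ys l R B → ∀ t : ℝ, ∀ᶠ n in atTop, 0 < xs p n →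
      ‖cf (piG (n + 1)) (cnt p n) t - Complex.exp (-(t : ℂ) ^ 2 / 2)‖ ≤
        |t| * (2 * η / xs p n) + η)

lemma app (hI : RowIND) (hA : RowSTEPA) (hB : RowSTEPB) {μ : Measure ℝ} {C₀ : ℝ} {s : ℕ}
    {p : ℕ → ℝ[X]} (h1 : Dbl μ C₀ s) (h2 : ONP μ p) (h3 : μ ≪ volume)
    (h4 : volume.restrict (Set.Icc 0 π) ≪ μ) : Ap p := by
  intro η hη
  obtain ⟨l₀, N₀, hA⟩ := hA μ C₀ s p h1 h2 (η ^ 2 / 4) (by positivity)
  refine (eventually_ge_atTop l₀).mono fun l hl => ?_
  obtain ⟨R₀, hB⟩ := hB μ C₀ s p h1 h2 h3 h4 l (η ^ 2 / 4) (by positivity)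
  refine (eventually_ge_atTop R₀).mono fun R hR => ?_
  obtain ⟨B₀, hB⟩ := hB R hR
  refine (eventually_ge_atTop (B₀ + 1)).mono fun B hb => ?_
  obtain ⟨d, hB⟩ := hB B (by omega)
  have B0 : 0 < B := by omega
  set VG := Var[Gm l R B; piG B] with hVG
  have key : ∀ᶠ n : ℕ in atTop, 0 < n ∧
      |√(Var[cnt p n; piG (n + 1)]) - √(((n + 1 - d) / B : ℕ) * VG)| ≤ η * √n ∧
      ∀ t : ℝ, 0 < Var[cnt p n; piG (n + 1)] → 0 < ((n + 1 - d) / B : ℕ) * VG →
        ‖cf (piG (n + 1)) (cnt p n) t -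
          cf (piG B) (Gm l R B) ((√((n + 1 - d) / B : ℕ))⁻¹ * t) ^ ((n + 1 - d) / B)‖ ≤
          |t| * (2 * (η * √n) / √(Var[cnt p n; piG (n + 1)])) := by
    filter_upwards [hB, eventually_ge_atTop (2 * d + N₀ + 1)] with n hn hn'
    obtain ⟨D, φ, e, o1, o2, v2⟩ := hn (n + 1 - d) (by omega)
    have v1 := hA l (n + 1 - d) n D φ hl (by omega) ⟨by omega, by omega⟩ o1
    obtain ⟨-, t2, t3⟩ := transport (measurable_blk φ (n + 1) 0)
      ((hI D (n + 1) 1 φ (by rwa [one_mul])).2 0 one_pos) (measurable_cnt p n)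
    obtain ⟨i1, i2⟩ := hI D B ((n + 1 - d) / B) e (o2.mono (Nat.div_mul_le_self _ _))
    obtain ⟨s1, s2⟩ := iid (fun b => measurable_blk e B b) i1 (fun b => i2 b b.2)
      (measurable_Gm l R B) _ (abs_Gm_le l R B)
    simp only [← Fin.sum_univ_eq_sum_range (fun b => Gm l R B (blk e B b _))] at v2
    have mZ : Measurable fun W => cnt p n (blk φ (n + 1) 0 W) :=
      (measurable_cnt p n).comp (measurable_blk φ (n + 1) 0)
    have lZ : MemLp (fun W => cnt p n (blk φ (n + 1) 0 W)) 2 (gam D) :=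
      memLp_bdd mZ n fun W => abs_cnt_le h2.deg n _
    have mS : Measurable fun W => ∑ b : Fin ((n + 1 - d) / B), Gm l R B (blk e B b W) :=
      Finset.measurable_sum _ fun b _ => (measurable_Gm l R B).comp (measurable_blk e B b)
    have lS : MemLp (fun W => ∑ b : Fin ((n + 1 - d) / B), Gm l R B (blk e B b W)) 2 (gam D) :=
      memLp_finsetSum _ fun b _ => memLp_bdd ((measurable_Gm l R B).comp (measurable_blk e B b)) _
        fun W => abs_Gm_le l R B _
    have lL := memLp_Sl (Kt p n (n + 1 - d) φ) (n + 1 - d) l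
    have v3 := var_add_le (P := gam D)
      (f := fun W => cnt p n (blk φ (n + 1) 0 W) - Sl (Kt p n (n + 1 - d) φ) (n + 1 - d) l W)
      (g := fun W => Sl (Kt p n (n + 1 - d) φ) (n + 1 - d) l W -
        ∑ b : Fin ((n + 1 - d) / B), Gm l R B (blk e B b W)) (lZ.sub lL) (lL.sub lS)
    simp only [sub_add_sub_cancel] at v3
    have v4 : √(Var[fun W => cnt p n (blk φ (n + 1) 0 W) -
        ∑ b : Fin ((n + 1 - d) / B), Gm l R B (blk e B b W); gam D]) ≤ η * √n := by
      refine Real.sqrt_le_iff.2 ⟨by positivity, ?_⟩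
      rw [mul_pow, Real.sq_sqrt (Nat.cast_nonneg n)]
      linarith
    have c1 := sd_close lZ lS
    rw [t2, s1] at c1
    refine ⟨by omega, c1.trans v4, fun t a b => ?_⟩
    have c2 := cf_close mZ mS lZ lS (by rwa [t2]) (by rwa [s1]) t
    rw [t3, s2, t2] at c2
    refine c2.trans ?_
    gcongr
  have r1 : Tendsto (fun n : ℕ => √((((n + 1 - d) / B : ℕ) : ℝ) / n * VG)) atTop
      (𝓝 (ys l R B)) := by
    have := ((blocks_ratio d B B0).mul_const VG).sqrt
    rwa [one_div_mul_eq_div] at this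
  refine ⟨?_, fun y0 t => ?_⟩
  · filter_upwards [key, r1.eventually (Metric.closedBall_mem_nhds _ hη)] with n hn h5
    have n0 : 0 < √(n : ℝ) := Real.sqrt_pos.2 (by exact_mod_cast hn.1)
    have h6 : |xs p n - √((((n + 1 - d) / B : ℕ) : ℝ) / n * VG)| ≤ η := by
      rw [xs, div_mul_eq_mul_div, Real.sqrt_div' _ (Nat.cast_nonneg n),
        Real.sqrt_div' _ (Nat.cast_nonneg n), ← sub_div, abs_div, abs_of_pos n0, div_le_iff₀ n0]
      exact hn.2.1
    rw [Real.dist_eq] at h5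
    linarith [abs_sub_le (xs p n) (√((((n + 1 - d) / B : ℕ) : ℝ) / n * VG)) (ys l R B)]
  · have V0 : 0 < VG := by
      have := Real.sqrt_pos.1 y0
      exact (div_pos_iff_of_pos_right (by exact_mod_cast B0)).1 this
    have r2 := (clt (measurable_Gm l R B) (memLp_bdd (measurable_Gm l R B) _ (abs_Gm_le l R B))
      V0 t).comp (blocks_top d B B0)
    filter_upwards [key, r2.eventually (Metric.closedBall_mem_nhds _ hη),
      (blocks_top d B B0).eventually (eventually_gt_atTop 0)] with n hn h5 h6 x0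
    have n0 : (0 : ℝ) < n := by exact_mod_cast hn.1
    have v0 : 0 < Var[cnt p n; piG (n + 1)] :=
      (div_pos_iff_of_pos_right n0).1 (Real.sqrt_pos.1 x0)
    have h7 := hn.2.2 t v0 (mul_pos (by exact_mod_cast h6) V0)
    rw [dist_eq_norm] at h5
    refine (norm_sub_le_norm_sub_add_norm_sub _ _ _).trans (add_le_add (h7.trans (le_of_eq ?_)) h5)
    rw [xs, Real.sqrt_div' _ n0.le, div_div_eq_mul_div, mul_assoc]

lemma Ap.lim {p : ℕ → ℝ[X]} (h : Ap p) : ∃ a, Tendsto (xs p) atTop (𝓝 a) := by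
  refine cauchySeq_tendsto_of_complete (Metric.cauchySeq_iff'.2 fun ε hε => ?_)
  obtain ⟨l, R, B, h1, -⟩ := (h (ε / 5) (by positivity)).ex
  obtain ⟨N, hN⟩ := eventually_atTop.1 h1
  refine ⟨N, fun n hn => ?_⟩
  have a1 := abs_le.1 (hN n hn)
  have a2 := abs_le.1 (hN N le_rfl)
  rw [Real.dist_eq, abs_lt]
  constructor <;> linarith [a1.1, a1.2, a2.1, a2.2]

lemma near {x : ℕ → ℝ} {a y r : ℝ} (h : Tendsto x atTop (𝓝 a))
    (h' : ∀ᶠ n in atTop, |x n - y| ≤ r) : |a - y| ≤ r :=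
  le_of_tendsto (h.sub_const y).abs h'

end

theorem rowCORE : OfCORE := by
  intro hI hP hA hB
  obtain ⟨c₀, l₁, c0, hP⟩ := hP
  have pos : Ev fun l R B => √c₀ ≤ ys l R B := by
    refine (eventually_ge_atTop l₁).mono fun l hl => ?_
    obtain ⟨R₁, hP⟩ := hP l hl
    refine (eventually_ge_atTop R₁).mono fun R hR => ?_
    refine (eventually_ge_atTop (4 * R + 1)).mono fun B hb => Real.sqrt_le_sqrt ?_
    rw [le_div_iff₀ (by exact_mod_cast (show 0 < B by omega))]
    exact hP R B hR (by omega)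
  have s0 := Real.sqrt_pos.2 c0
  have low : ∀ {p a}, Ap p → Tendsto (xs p) atTop (𝓝 a) → 0 < a := by
    intro p a h ha
    obtain ⟨l, R, B, h1, h2⟩ := ((h (√c₀ / 4) (by positivity)).and pos).ex
    linarith [(abs_le.1 (near ha h1.1)).1]
  have uni : ∀ {p p' a a'}, Ap p → Ap p' → Tendsto (xs p) atTop (𝓝 a) →
      Tendsto (xs p') atTop (𝓝 a') → a ≤ a' := by
    intro p p' a a' h h' ha ha'
    refine le_of_forall_pos_le_add fun ε hε => ?_
    obtain ⟨l, R, B, h1, h2⟩ := ((h (ε / 4) (by positivity)).and (h' (ε / 4) (by positivity))).ex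
    linarith [(abs_le.1 (near ha h1.1)).2, (abs_le.1 (near ha' h2.1)).1]
  obtain ⟨a, a0, ha⟩ : ∃ a : ℝ, 0 < a ∧ ∀ p, Ap p → Tendsto (xs p) atTop (𝓝 a) := by
    by_cases h : ∃ p, Ap p
    · obtain ⟨p₀, h₀⟩ := h
      obtain ⟨a, ha⟩ := h₀.lim
      refine ⟨a, low h₀ ha, fun p h => ?_⟩
      obtain ⟨a', ha'⟩ := h.lim
      rwa [le_antisymm (uni h₀ h ha ha') (uni h h₀ ha' ha)]
    · exact ⟨1, one_pos, fun p hp => absurd ⟨p, hp⟩ h⟩
  refine ⟨a ^ 2, by positivity, fun μ C₀ s p h1 h2 h3 h4 => ?_⟩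
  have h := app hI hA hB h1 h2 h3 h4
  refine ⟨((ha p h).pow 2).congr fun n =>
    Real.sq_sqrt (div_nonneg (variance_nonneg _ _) (Nat.cast_nonneg n)), fun t => ?_⟩
  refine Metric.tendsto_nhds.2 fun ε hε => ?_
  have k0 : 0 < |t| * (4 / a) + 2 := by positivity
  obtain ⟨l, R, B, h5, h6⟩ := ((h (ε / (|t| * (4 / a) + 2)) (by positivity)).and pos).ex
  filter_upwards [h5.2 (s0.trans_le h6) t,
    (ha p h).eventually (lt_mem_nhds (half_lt_self a0))] with n h7 h8
  have x0 : 0 < xs p n := (half_pos a0).trans h8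
  rw [dist_eq_norm]
  refine (h7 x0).trans_lt ?_
  have e : ε = (|t| * (4 / a) + 2) * (ε / (|t| * (4 / a) + 2)) := by field_simp
  have η0 : 0 < ε / (|t| * (4 / a) + 2) := by positivity
  generalize ε / (|t| * (4 / a) + 2) = η at *
  have h9 : 2 * η / xs p n ≤ 4 / a * η := by
    refine (div_le_div_of_nonneg_left (by positivity) (half_pos a0) h8.le).trans (le_of_eq ?_)
    field_simp
    ring
  have := mul_le_mul_of_nonneg_left h9 (abs_nonneg t)
  rw [e]
  nlinarith

end Pool.Agent.MP_f6b137_pr.H16
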