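import Pool.Agent.MP_f6b137_pr.H74.Base

/-! The number of real zeros is close in variance to the number of sign changes on a grid. -/

namespace Pool.Agent.MP_f6b137_pr.H16

open MeasureTheory ProbabilityTheory Filter Topology Polynomial Pool.Agent.MP_f6b137_pr.H74
open scoped Real RealInnerProductSpace

lemma tel_sd {D N : ℕ} {K : ℝ → ES D} {a r : ℝ} (ha : 0 ≤ a) (h0 : 0 ≤ r) (h1 : r < 1)
    (h : ∀ l : ℕ, √(Var[fun W => Sl K N (l + 1) W - Sl K N l W; gam D]) ≤ a * r ^ l) (l m : ℕ) :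
    √(Var[fun W => Sl K N (l + m) W - Sl K N l W; gam D]) ≤ a * r ^ l / (1 - r) := by
  have e : (fun W => Sl K N (l + m) W - Sl K N l W) = fun W => ∑ i ∈ Finset.range m,
      (Sl K N (l + i + 1) W - Sl K N (l + i) W) := by
    funext W
    exact (Finset.sum_range_sub (fun i => Sl K N (l + i) W) m).symm
  rw [e]
  refine (sd_sum_le (P := gam D) (Finset.range m)
    (f := fun i W => Sl K N (l + i + 1) W - Sl K N (l + i) W)
    fun i _ => (memLp_Sl K N _).sub (memLp_Sl K N _)).trans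
    ((Finset.sum_le_sum fun i _ => h (l + i)).trans ?_)
  simp only [pow_add, ← mul_assoc, ← Finset.mul_sum]
  rw [div_eq_mul_inv]
  refine mul_le_mul_of_nonneg_left ?_ (by positivity)
  rw [← tsum_geometric_of_lt_one h0 h1]
  exact (summable_geometric_of_lt_one h0 h1).sum_le_tsum _ fun i _ => by positivity

open Classical in
theorem rowSTEPA : OfSTEPA := by
  intro hWH hTEL hMIS hOUT μ C₀ s p hD hp ε hε
  obtain ⟨κ, A, N₁, hκ, hA, hW⟩ := hWH μ C₀ s p hD hp
  obtain ⟨A', r, hA', r0, r1, hT⟩ := hTEL κ A hκ hA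
  obtain ⟨N₂, hO⟩ := hOUT μ C₀ s p hD hp (ε / 8) (by positivity)
  have t1 : Tendsto (fun l : ℕ => (A' * r ^ l / (1 - r)) ^ 2) atTop (𝓝 0) := by
    simpa using (((tendsto_pow_atTop_nhds_zero_of_lt_one r0 r1).const_mul A').div_const (1 - r)).pow 2
  obtain ⟨l₀, hl₀⟩ := eventually_atTop.1
    (t1.eventually (ge_mem_nhds (show (0 : ℝ) < ε / 8 by positivity)))
  obtain ⟨N₃, hN₃⟩ := exists_nat_ge (16 / ε)
  refine ⟨l₀, N₁ + N₂ + N₃ + 2, fun l N n D φ hl hN hR hφ => ?_⟩
  have w := hW N n D φ (by omega) hR hφ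
  have n1 : (1 : ℝ) ≤ n := by exact_mod_cast (show 1 ≤ n by have := hR.1; omega)
  have n2 : (N : ℝ) ≤ 2 * n := by exact_mod_cast (show N ≤ 2 * n by have := hR.1; omega)
  have n3 : 16 ≤ ε * n := by
    have : (N₃ : ℝ) ≤ n := by exact_mod_cast (show N₃ ≤ n by have := hR.1; omega)
    rw [div_le_iff₀ hε] at hN₃
    nlinarith
  obtain ⟨m1, m2⟩ := hMIS p n N D φ κ A hp.deg hκ (by omega) w
  obtain ⟨l₂, h2, h3⟩ := ((m2 (1 / (n : ℝ) ^ 2) (by positivity)).and (eventually_ge_atTop l)).exists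
  obtain ⟨m, rfl⟩ := Nat.exists_eq_add_of_le h3
  have mc : Measurable fun W => cnt p n (blk φ (n + 1) 0 W) :=
    (measurable_cnt p n).comp (measurable_blk φ (n + 1) 0)
  have mf : Measurable fun W => cnt p n (blk φ (n + 1) 0 W) - Sl (Kt p n N φ) N (l + m) W :=
    mc.sub (measurable_Sl (Kt p n N φ) N (l + m))
  have bf : ∀ W, |cnt p n (blk φ (n + 1) 0 W) - Sl (Kt p n N φ) N (l + m) W| ≤ n := fun W => by
    have a1 := (abs_le.1 (abs_cnt_le hp.deg n (blk φ (n + 1) 0 W))).2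
    have a2 : 0 ≤ cnt p n (blk φ (n + 1) 0 W) := Nat.cast_nonneg _
    have a3 := m1 (l + m) W
    have a4 := Sl_nonneg (Kt p n N φ) N (l + m) W
    rw [abs_le]
    constructor <;> linarith
  have v1 := var_le_of_bad (P := gam D) mf n (ε / 8 * n) (by positivity)
    ({W | Sl (Kt p n N φ) N (l + m) W ≠
        (((Pw p n φ W).roots.toFinset.filter fun x => |x| < Real.cos (π / N)).card : ℝ)} ∪
      {W | ε / 8 * n <
        (((Pw p n φ W).roots.toFinset.filter fun x => Real.cos (π / N) ≤ |x|).card : ℝ) ^ 2})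
    bf fun W hW => by
      simp only [Set.mem_union, Set.mem_ofPred_eq, not_or, not_not, not_lt] at hW
      have a1 := Finset.card_filter_add_card_filter_not (s := (Pw p n φ W).roots.toFinset)
        fun x => |x| < Real.cos (π / N)
      simp only [not_lt] at a1
      rw [hW.1, cnt_blk, ← a1, Nat.cast_add, add_sub_cancel_left]
      exact hW.2
  have v2 := (measureReal_union_le _ _).trans (add_le_add h2 (hO N n D φ (by omega) hR hφ))
  have v3 := v1.trans (add_le_add le_rfl (mul_le_mul_of_nonneg_left v2 (by positivity)))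
  rw [show (n : ℝ) ^ 2 * (1 / (n : ℝ) ^ 2 + 1 / (n : ℝ) ^ 2) = 2 by field_simp; ring] at v3
  have v4 := tel_sd (by positivity) r0 r1 (hT D N _ w) l m
  have v5 : Var[fun W => Sl (Kt p n N φ) N (l + m) W - Sl (Kt p n N φ) N l W; gam D] ≤
      ε / 8 * (2 * n) := by
    refine (Real.sqrt_le_iff.1 v4).2.trans ?_
    rw [show (A' * √N * r ^ l / (1 - r)) ^ 2 = (A' * r ^ l / (1 - r)) ^ 2 * √N ^ 2 by ring,
      Real.sq_sqrt (Nat.cast_nonneg N)]
    exact mul_le_mul (hl₀ l hl) n2 (Nat.cast_nonneg N) (by positivity)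
  have v6 := var_add_le (P := gam D) (memLp_bdd mf n bf)
    (g := fun W => Sl (Kt p n N φ) N (l + m) W - Sl (Kt p n N φ) N l W)
    ((memLp_Sl (Kt p n N φ) N (l + m)).sub (memLp_Sl (Kt p n N φ) N l))
  simp only [sub_add_sub_cancel] at v6
  linarith

end Pool.Agent.MP_f6b137_pr.H16
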